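import Pool.Agent.W622.ETG.Stm

set_option autoImplicit false

/-!
Two good blocks.
-/

namespace Pool.Agent.W585.ELG

open Pool.Agent.W622.ETG Module

/-- uniqueness of a decomposition with respect to disjoint subspaces -/
theorem disj_unique {M : Type*} [AddCommGroup M] [Module (ZMod 2) M] {X Y : Submodule (ZMod 2) M}
    (h : Disjoint X Y) {a a' b b' : M} (ha : a ∈ X) (ha' : a' ∈ X) (hb : b ∈ Y) (hb' : b' ∈ Y)
    (he : a + b = a' + b') : a = a' := by
  have h1 : a - a' = b' - b := by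
    have : a - a' = a + b - (a' + b) := by abel
    rw [this, he]
    abel
  have h2 : a - a' ∈ X ⊓ Y := ⟨X.sub_mem ha ha', h1 ▸ Y.sub_mem hb' hb⟩
  rw [h.eq_bot, Submodule.mem_bot] at h2
  exact sub_eq_zero.1 h2

theorem frm_cancel {V : Type} [AddCommGroup V] [Module (ZMod 2) V] {α β γ : Frm V}
    (h : α + γ = β + γ) : α = β := by
  refine LinearMap.ext fun x => ?_
  have h5 := LinearMap.congr_fun h x
  rw [LinearMap.add_apply, LinearMap.add_apply] at h5
  exact add_right_cancel h5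

theorem frm_add {V : Type} [AddCommGroup V] [Module (ZMod 2) V] (α β : Frm V) :
    α + β + β = α := by
  refine LinearMap.ext fun x => ?_
  rw [LinearMap.add_apply, LinearMap.add_apply]
  exact add_cancel' _ _

theorem frm_swap {V : Type} [AddCommGroup V] [Module (ZMod 2) V] (α β γ : Frm V) :
    α + γ + β = α + β + γ := by
  refine LinearMap.ext fun x => ?_
  rw [LinearMap.add_apply, LinearMap.add_apply, LinearMap.add_apply, LinearMap.add_apply]
  abel

/-- HH -/
theorem t_HH (hLU : S_LU) (hDEC : S_DEC) (hCB1 : S_CB1) (hOM : S_OM) (hSPLIT : S_SPLIT)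
    (hBDIS : S_BDIS) : S_HH := by
  intro V _ _ _ e A X₁ X₂ x₁ x₂ ζ a hCB hX₁ hX₂ hne hx₁ hx₂ hx₁0 hζ hζa hom
  have hMC := hCB.mc
  have hA := hMC.ef
  have hlink : Linked A := hMC.her.linked
  -- blocks are local
  have hloc : ∀ X : DSub V, Block e A X → LocBlock e A X := by
    intro X hX
    rcases hX with h | h
    · exact absurd h.1 (hCB.nc X)
    · exact h
  obtain ⟨h1A, h10, h1s, h1r, -, -⟩ := hOM V e A X₁ hA (hloc X₁ hX₁.1)
  obtain ⟨h2A, h20, h2s, h2r, -, -⟩ := hOM V e A X₂ hA (hloc X₂ hX₂.1)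
  have hdis : Disjoint X₁ X₂ := hBDIS V e A X₁ X₂ hMC hX₁ hX₂.1 hne
  set o1 := om e A X₁ with ho1
  set o2 := om e A X₂ with ho2
  have a1 := hA o1 h1A
  have a2 := hA o2 h2A
  have hdis' : Disjoint (sp o1) (sp o2) := by rw [h1s, h2s]; exact hdis
  set θ := o1 + o2 with hθ
  have hθA : θ ∈ A := A.add_mem h1A h2A
  have hθs : sp θ = X₁ ⊔ X₂ := by
    rw [hθ, sp_add a1 a2 hdis', h1s, h2s]
  -- h is nonzero
  have hh0 : x₁ + x₂ ≠ 0 := by
    intro h
    have h3 : x₁ = x₂ := add_eq_zero'.mp h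
    have h4 : x₁ ∈ X₁ ⊓ X₂ := ⟨hx₁, h3 ▸ hx₂⟩
    rw [hdis.eq_bot, Submodule.mem_bot] at h4
    exact hx₁0 h4
  have ha0 : a ≠ 0 := by
    rintro rfl
    rw [map_zero] at hζa
    exact hh0 hζa.symm
  -- a point of C
  obtain ⟨v1, hv1⟩ : ∃ v, o1 v = x₁ := by
    have : x₁ ∈ sp o1 := by rw [h1s]; exact hx₁
    exact mem_sp.1 this
  obtain ⟨v2, hv2⟩ : ∃ v, o2 v = x₂ := by
    have : x₂ ∈ sp o2 := by rw [h2s]; exact hx₂
    exact mem_sp.1 this
  obtain ⟨v₀, hg1, hg2⟩ := exists_glue hdis v1 v2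
  have hv01 : o1 v₀ = x₁ := by
    rw [← hv1]
    refine LinearMap.ext fun b => ?_
    rw [a1.symm v₀ b, a1.symm v1 b]
    exact hg1 _ (by rw [← h1s]; exact ⟨b, rfl⟩)
  have hv02 : o2 v₀ = x₂ := by
    rw [← hv2]
    refine LinearMap.ext fun b => ?_
    rw [a2.symm v₀ b, a2.symm v2 b]
    exact hg2 _ (by rw [← h2s]; exact ⟨b, rfl⟩)
  have hθv0 : θ v₀ = x₁ + x₂ := by
    rw [hθ, LinearMap.add_apply, hv01, hv02]
  -- the linked forms
  have hex : ∀ w : LinearMap.ker θ, ∃ η ∈ A, η (v₀ + w.1) = x₁ + x₂ ∧ η a = x₁ + x₂ := by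
    intro w
    have hw : θ (v₀ + w.1) = x₁ + x₂ := by
      rw [map_add, hθv0, LinearMap.mem_ker.1 w.2, add_zero]
    obtain ⟨η, hη, h3, h4⟩ := hlink θ hθA ζ hζ (v₀ + w.1) a (by rw [hw, hζa])
    exact ⟨η, hη, by rw [h3, hw], by rw [h4, hw]⟩
  choose η hηA hη1 hη2 using hex
  -- the claim
  have claim : ∀ (η : Frm V) (b : V), η ∈ A → η a = x₁ + x₂ → b ≠ 0 → θ b = 0 → η b = 0 → False := by
    intro η b hηA hη2 hb hθb hηb
    obtain ⟨hb1, hb2⟩ := (add_ker (le_of_eq h1s) (le_of_eq h2s) hdis).1 hθb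
    have hX1b : X₁ ≤ ann b := by
      rw [← h1s]
      exact a1.ker_iff_ann.1 hb1
    have hX2b : X₂ ≤ ann b := by
      rw [← h2s]
      exact a2.ker_iff_ann.1 hb2
    obtain ⟨hcomp, -, -⟩ := hCB1 V e A b hCB hb
    have ht : ({X₁, X₂} : Set (DSub V)) ⊆ BL e A b := by
      rintro X (rfl | rfl)
      · exact ⟨hX₁.1, hX1b⟩
      · exact ⟨hX₂.1, hX2b⟩
    obtain ⟨hs1, hs2, hs3⟩ := hSPLIT V e (res A (ann b)) (BL e A b) {X₁, X₂} (hA.res _) hcomp ht
    have hsup : sSup ({X₁, X₂} : Set (DSub V)) = X₁ ⊔ X₂ := sSup_pair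
    have hmem : η ∈ res A (ann b) := (mem_res_ann hA).2 ⟨hηA, hηb⟩
    rw [hs1] at hmem
    obtain ⟨μ, hμ, ν, hν, hμν⟩ := Submodule.mem_sup.1 hmem
    have hμa : μ a = x₁ + x₂ := by
      have e : (x₁ + x₂) + 0 = μ a + ν a := by
        rw [add_zero, ← hη2, ← hμν, LinearMap.add_apply]
      refine (disj_unique hs2 ?_ (hμ.2 a) (Submodule.zero_mem _) (hν.2 a) e).symm
      rw [hsup]
      exact Submodule.add_mem_sup hx₁ hx₂
    have hμ2 : μ ∈ ⨆ X ∈ ({X₁, X₂} : Set (DSub V)), res (res (res A (ann b))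
        (sSup ({X₁, X₂} : Set (DSub V)))) X := by
      rw [← hs3.2.1]
      exact hμ
    rw [iSup_pair] at hμ2
    obtain ⟨μ1, hμ1, μ2, hμ2', hμ12⟩ := Submodule.mem_sup.1 hμ2
    have m1 : μ1 ∈ res A X₁ := ⟨hμ1.1.1.1, hμ1.2⟩
    have m2 : μ2 ∈ res A X₂ := ⟨hμ2'.1.1.1, hμ2'.2⟩
    have e1 : μ1 a = x₁ := by
      refine disj_unique hdis (m1.2 a) hx₁ (m2.2 a) hx₂ ?_
      rw [← hμa, ← hμ12, LinearMap.add_apply]
    rcases h1r μ1 m1 with h5 | h5
    · rw [h5] at e1
      exact hx₁0 e1.symm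
    · rw [h5] at e1
      exact hom e1
  have hker0 : (0 : V) ∈ LinearMap.ker θ := Submodule.zero_mem _
  have hinj : ∀ η : LinearMap.ker θ → Frm V, (∀ w, η w ∈ A) →
      (∀ w, η w (v₀ + w.1) = x₁ + x₂) → (∀ w, η w a = x₁ + x₂) → Function.Injective η := by
    intro η hηA hη1 hη2 w w' h4
    by_contra hne'
    have hb : w.1 + w'.1 ≠ 0 := by
      intro h
      exact hne' (Subtype.ext (add_eq_zero'.mp h))
    refine claim (η w) (w.1 + w'.1) (hηA w) (hη2 w) hb ?_ ?_
    · rw [map_add, LinearMap.mem_ker.1 w.2, LinearMap.mem_ker.1 w'.2, add_zero]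
    · have h5 : w.1 + w'.1 = (v₀ + w.1) + (v₀ + w'.1) := by
        have : (v₀ + w.1) + (v₀ + w'.1) = (v₀ + v₀) + (w.1 + w'.1) := by abel
        rw [this, vadd, zero_add]
      rw [h5, map_add, hη1 w]
      rw [h4, hη1 w', vadd]
  have c1 : Nat.card (LinearMap.ker θ) = 2 ^ finrank (ZMod 2) (LinearMap.ker θ) := by
    rw [Module.natCard_eq_pow_finrank (K := ZMod 2), Nat.card_zmod]
  have c2 := @Module.natCard_eq_pow_finrank (ZMod 2) (res A (ann a)) _
    (Submodule.addCommGroup (R := ZMod 2) (M := Frm V) (res A (ann a))) _ _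
  rw [Nat.card_zmod] at c2
  obtain ⟨-, hfr, -⟩ := hCB1 V e A a hCB ha0
  have hsum := finrank_sp_add_ker θ
  have hsup := Submodule.finrank_sup_add_finrank_inf_eq X₁ X₂
  have hspf : finrank (ZMod 2) (sp θ) = finrank (ZMod 2) (X₁ ⊔ X₂ : DSub V) := by rw [hθs]
  constructor
  · -- the injective map
    let F : LinearMap.ker θ → res A (ann a) := fun w => ⟨η w + η ⟨0, hker0⟩, by
      rw [mem_res_ann hA]
      refine ⟨A.add_mem (hηA _) (hηA _), ?_⟩
      rw [LinearMap.add_apply, hη2, hη2, vadd]⟩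
    have hF : Function.Injective F := by
      intro w w' hww
      have h3 : η w + η ⟨0, hker0⟩ = η w' + η ⟨0, hker0⟩ := congrArg Subtype.val hww
      exact hinj η hηA hη1 hη2 (frm_cancel h3)
    have hcard : Nat.card (LinearMap.ker θ) ≤ Nat.card (res A (ann a)) :=
      Nat.card_le_card_of_injective F hF
    rw [c1, c2] at hcard
    have hle := (Nat.pow_le_pow_iff_right (by norm_num : 1 < 2)).1 hcard
    rw [hfr] at hle
    omega
  · rintro ⟨X, hXB, hXG⟩
    obtain ⟨hXA, hX0, hXs, hXr, -, -⟩ := hOM V e A X hA (hloc X hXB.1)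
    have aX := hA _ hXA
    have hXa : om e A X a = 0 := by
      rw [aX.ker_iff_ann, hXs]
      exact hXB.2
    have hXres : om e A X ∈ res A X := by
      rw [mem_res']
      exact ⟨hXA, le_of_eq hXs⟩
    obtain ⟨hd1, hd2, -⟩ := hDEC V e A X hA
    have hLUX : LU e (res A X) := by
      apply hLU V e (res A X) (hA.res X)
      intro Y
      rw [res_res]
      exact hMC.her _
    -- new forms
    have hex2 : ∀ w : LinearMap.ker θ, ∃ η' ∈ A, η' (v₀ + w.1) = x₁ + x₂ ∧ η' a = x₁ + x₂ ∧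
        Disjoint (sp η') X := by
      intro w
      obtain ⟨π, hπ1, hπ2⟩ := hd1 hLUX hXG (η w) (hηA w)
      have hπa : π a = 0 := by
        rcases hXr π hπ1 with h | h
        · rw [h]; rfl
        · rw [h]; exact hXa
      have hη'a : (η w + π) a = x₁ + x₂ := by
        rw [LinearMap.add_apply, hη2, hπa, add_zero]
      have hπv : π (v₀ + w.1) = 0 := by
        have h3 : π (v₀ + w.1) = (η w + π) (v₀ + w.1) + (η w + π) a := by
          rw [hη'a, LinearMap.add_apply, hη1]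
          have : x₁ + x₂ + π (v₀ + w.1) + (x₁ + x₂) = (x₁ + x₂) + (x₁ + x₂) + π (v₀ + w.1) := by
            abel
          rw [this, vadd, zero_add]
        have h4 : π (v₀ + w.1) ∈ sp (η w + π) ⊓ X := by
          refine ⟨?_, hπ1.2 _⟩
          rw [h3]
          exact Submodule.add_mem _ ⟨_, rfl⟩ ⟨_, rfl⟩
        rw [hπ2.eq_bot, Submodule.mem_bot] at h4
        exact h4
      refine ⟨η w + π, A.add_mem (hηA w) hπ1.1, ?_, hη'a, hπ2⟩
      rw [LinearMap.add_apply, hη1, hπv, add_zero]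
    choose η' hη'A hη'1 hη'2 hη'3 using hex2
    have hi' := hinj η' hη'A hη'1 hη'2
    let F : LinearMap.ker θ × Bool → res A (ann a) := fun wi =>
      ⟨(η' wi.1 + η' ⟨0, hker0⟩) + (if wi.2 = true then om e A X else 0), by
      rw [mem_res_ann hA]
      refine ⟨A.add_mem (A.add_mem (hη'A _) (hη'A _)) ?_, ?_⟩
      · split_ifs
        · exact hXA
        · exact A.zero_mem
      · rw [LinearMap.add_apply, LinearMap.add_apply, hη'2, hη'2, vadd, zero_add]
        split_ifs
        · exact hXa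
        · rfl⟩
    have hno : ∀ w w' : LinearMap.ker θ, η' w = η' w' + om e A X → False := by
      intro w w' h
      have p1 : IsPr A X (η' w) 0 := ⟨Submodule.zero_mem _, by rw [add_zero]; exact hη'3 w⟩
      have p2 : IsPr A X (η' w) (om e A X) := by
        refine ⟨hXres, ?_⟩
        rw [h, frm_add]
        exact hη'3 w'
      exact hX0 (hd2 (η' w) (hη'A w) 0 (om e A X) p1 p2).symm
    have hF : Function.Injective F := by
      rintro ⟨w, i⟩ ⟨w', j⟩ hww
      have h3 : (η' w + η' ⟨0, hker0⟩) + (if i = true then om e A X else 0) =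
          (η' w' + η' ⟨0, hker0⟩) + (if j = true then om e A X else 0) := congrArg Subtype.val hww
      have h4 : η' w + (if i = true then om e A X else 0) =
          η' w' + (if j = true then om e A X else 0) := by
        rw [frm_swap, frm_swap (η' w')] at h3
        exact frm_cancel h3
      cases i <;> cases j
      · simp only [Bool.false_eq_true, if_false, add_zero] at h4
        rw [hi' h4]
      · simp only [Bool.false_eq_true, if_false, if_true, add_zero] at h4
        exact absurd h4 (hno w w')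
      · simp only [Bool.false_eq_true, if_false, if_true, add_zero] at h4
        exact absurd h4.symm (hno w' w)
      · simp only [if_true] at h4
        rw [hi' (frm_cancel h4)]
    have hcard : Nat.card (LinearMap.ker θ × Bool) ≤ Nat.card (res A (ann a)) :=
      Nat.card_le_card_of_injective F hF
    have c3 : Nat.card (LinearMap.ker θ × Bool) = 2 ^ (finrank (ZMod 2) (LinearMap.ker θ) + 1) := by
      rw [Nat.card_prod, c1, pow_succ, Nat.card_eq_fintype_card (α := Bool), Fintype.card_bool]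
    rw [c3, c2] at hcard
    have hle := (Nat.pow_le_pow_iff_right (by norm_num : 1 < 2)).1 hcard
    rw [hfr] at hle
    omega

end Pool.Agent.W585.ELG
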